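import Pool.Agent.BrentiBulk.Final

/-!
# The Eulerian triangle (r = 1): minors of a fixed order

For the triangle `Ě⁽¹⁾` of MP_61fb0e_co (by symmetry Brenti's Eulerian triangle) and every order `m`
there is a number `N` such that the minors of order `m` with all rows `≥ n₁` are nonnegative, as soon
as the solid minors of order `≤ m` whose first row `n` satisfies `n₁ ≤ n < N` and whose first column is
less than `n` are positive. For `n₁ = N` nothing is assumed; for `n₁ = 0` this reduces total
positivity of order `m` of the infinite triangle to a finite computation.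
-/

set_option autoImplicit false

namespace Pool.Agent.Results.MP_61fb0e_co.FixedOrderLargeRows

theorem result :
    ∀ m : ℕ, ∃ N : ℕ, ∀ E : ℕ → ℕ → ℤ,
      (∀ k : ℕ, E 0 k = if k = 0 then 1 else 0) →
      (∀ n : ℕ, E (n + 1) 0 = E n 0) →
      (∀ n k : ℕ, E (n + 1) (k + 1) =
          ((k : ℤ) + 2) * E n (k + 1) + ((1 : ℤ) * (n : ℤ) - (k : ℤ)) * E n k) →
      ∀ n₁ : ℕ,
        (∀ m' ≤ m, ∀ n k : ℕ, n₁ ≤ n → n < N → k < n →
          0 < (Matrix.of fun i j : Fin m' =>
            if (k + j) + 1 ≤ n + i then E (n + i) (n + i - (k + j) - 1) else 0).det) →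
        ∀ I J : Fin m → ℕ, StrictMono I → StrictMono J → (∀ i, n₁ ≤ I i) →
          0 ≤ (Matrix.of fun i j : Fin m =>
            if J j + 1 ≤ I i then E (I i) (I i - J j - 1) else 0).det :=
  Pool.Agent.BrentiBulk.fixed_order

end Pool.Agent.Results.MP_61fb0e_co.FixedOrderLargeRows
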