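import Pool.Agent.EulerianInv.Minor

set_option autoImplicit false

open Polynomial Finset Pool.Agent.EulerianInv

namespace Pool.Agent.Results.MP_61fb0e_co.HessenbergMinors

/-- For every `r ≥ 1` and all `s, m`, the minor of the shifted-reversed `r`-th order Eulerian triangle
with rows `s+2, ..., s+m+1` and columns `s, ..., s+m-1` is positive. -/
theorem result :
    ∀ r : ℕ, 1 ≤ r →
      ∀ E : ℕ → ℕ → ℤ,
        (∀ k : ℕ, E 0 k = if k = 0 then 1 else 0) →
        (∀ n : ℕ, E (n + 1) 0 = E n 0) →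
        (∀ n k : ℕ, E (n + 1) (k + 1) =
            ((k : ℤ) + 2) * E n (k + 1) + ((r : ℤ) * (n : ℤ) - (k : ℤ)) * E n k) →
        ∀ s m : ℕ,
          0 < (Matrix.of (fun i j : Fin m =>
                if (s + j) + 1 ≤ s + 2 + i then E (s + 2 + i) (s + 2 + i - (s + j) - 1) else 0)).det := by
  intro r hr E h0 h1 h2 s m
  have hρ : (0 : ℤ) ≤ (r : ℤ) - 1 := by
    have : (1 : ℤ) ≤ (r : ℤ) := by exact_mod_cast hr
    linarith
  obtain ⟨u, hu1, -, hu3, hu4⟩ := exists_pow ((r : ℤ) - 1) hρ (s + m)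
  have hmat : (Matrix.of (fun i j : Fin m =>
        if (s + j) + 1 ≤ s + 2 + i then E (s + 2 + i) (s + 2 + i - (s + j) - 1) else 0))
      = Matrix.of fun i j : Fin m => T E (s + 1 + i) (s + j) := by
    ext i j
    simp only [Matrix.of_apply, T]
    by_cases h : (s + (j : ℕ)) + 1 ≤ s + 2 + i
    · rw [if_pos h, if_pos (by omega)]
      congr 1 <;> omega
    · rw [if_neg h, if_neg (by omega)]
  rw [hmat]
  have hw : ∀ j : Fin m, ∑ i : Fin (m + 1), ((-1) ^ (i : ℕ) * u (s + i)) * T E (s + i) (s + j) = 0 := by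
    intro j
    have hc := congrArg (fun p : ℤ[X] => p.coeff (s + (j : ℕ))) hu4
    simp only [finset_sum_coeff, coeff_C_mul, coeff_S r E h0 h1 h2] at hc
    rw [coeff_X_pow, if_neg (by have := j.isLt; omega), show s + m + 1 = s + (m + 1) from rfl,
      Finset.sum_range_add] at hc
    have z : ∑ c ∈ range s, u c * ((-1) ^ (c + (s + (j : ℕ))) * T E c (s + j)) = 0 := by
      apply Finset.sum_eq_zero
      intro c hcs
      have := Finset.mem_range.1 hcs
      unfold T
      rw [if_neg (by omega)]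
      ring
    rw [z, zero_add, Finset.sum_range] at hc
    have e : ∀ i : Fin (m + 1), u (s + i) * ((-1) ^ (s + (i : ℕ) + (s + (j : ℕ))) * T E (s + i) (s + j))
        = (-1) ^ (j : ℕ) * (((-1) ^ (i : ℕ) * u (s + i)) * T E (s + i) (s + j)) := by
      intro i
      have : s + (i : ℕ) + (s + (j : ℕ)) = (s + s) + (i + j) := by omega
      rw [this, pow_add, pow_add, pow_add, ← mul_pow]
      norm_num
      ring
    rw [Finset.sum_congr rfl (fun i _ => e i), ← Finset.mul_sum] at hc
    have hne : ((-1 : ℤ) ^ (j : ℕ)) ≠ 0 := pow_ne_zero _ (by norm_num)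
    have hc' := hc.symm
    rcases mul_eq_zero.1 hc' with h | h
    · exact absurd h hne
    · exact h
  have key := det_hessenberg (T E) (fun n => by simp [T, E_zero E h0 h1])
    (fun n k h => by unfold T; rw [if_neg (by omega)]) s m
    (fun i => (-1) ^ (i : ℕ) * u (s + i)) (by simp [hu3]) hw
  rw [key]
  simpa using hu1 s (by omega)

end Pool.Agent.Results.MP_61fb0e_co.HessenbergMinors
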