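import Pool.Agent.BrentiRegion.ToE

/-!
# The Eulerian triangle (r = 1): strict positivity of all minors far below the diagonal

For the triangle `Ě⁽¹⁾` of MP_61fb0e_co (by symmetry Brenti's Eulerian triangle), every minor, of
any order, whose columns are less than `X` and whose rows are at least `X (4 ⌊log₂ X⌋ + 8)` is
strictly positive.
-/

set_option autoImplicit false

namespace Pool.Agent.Results.MP_61fb0e_co.LeftRegion

open Pool.Agent.BrentiRegion

theorem result :
    ∀ E : ℕ → ℕ → ℤ,
      (∀ k : ℕ, E 0 k = if k = 0 then 1 else 0) →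
      (∀ n : ℕ, E (n + 1) 0 = E n 0) →
      (∀ n k : ℕ, E (n + 1) (k + 1) =
          ((k : ℤ) + 2) * E n (k + 1) + ((1 : ℤ) * (n : ℤ) - (k : ℤ)) * E n k) →
      ∀ (X m : ℕ) (I J : Fin m → ℕ), StrictMono I → StrictMono J →
        (∀ j, J j < X) → (∀ i, X * (4 * Nat.log 2 X + 8) ≤ I i) →
        0 < (Matrix.of (fun i j : Fin m =>
              if J j + 1 ≤ I i then E (I i) (I i - J j - 1) else 0)).det :=
  fun E h0 h1 h2 X m I J hI hJ hX hn => region_E E h0 h1 h2 X m I J hI hJ hX hn

end Pool.Agent.Results.MP_61fb0e_co.LeftRegion
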