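import Pool.Agent.EulerTP3.Entries

set_option autoImplicit false

open Polynomial Finset Pool.Agent.EulerTP3

namespace Pool.Agent.Results.MP_61fb0e_co.MinorsOrderThree

/-- For every `r ≥ 1`, every minor of order at most three (arbitrary increasing rows and columns) of the
shifted-reversed `r`-th order Eulerian triangle is nonnegative. -/
theorem result :
    ∀ r : ℕ, 1 ≤ r →
      ∀ E : ℕ → ℕ → ℤ,
        (∀ k : ℕ, E 0 k = if k = 0 then 1 else 0) →
        (∀ n : ℕ, E (n + 1) 0 = E n 0) →
        (∀ n k : ℕ, E (n + 1) (k + 1) =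
            ((k : ℤ) + 2) * E n (k + 1) + ((r : ℤ) * (n : ℤ) - (k : ℤ)) * E n k) →
        ∀ (m : ℕ) (I J : Fin m → ℕ), m ≤ 3 → StrictMono I → StrictMono J →
          0 ≤ (Matrix.of (fun i j : Fin m =>
                if J j + 1 ≤ I i then E (I i) (I i - J j - 1) else 0)).det := by
  intro r hr E h0 h1 h2 m I J hm hI hJ
  obtain ⟨ρ, rfl⟩ : ∃ ρ, r = ρ + 1 := ⟨r - 1, by omega⟩
  by_cases hz : ∃ i, I i = 0
  · obtain ⟨i, hi⟩ := hz
    have : (Matrix.of (fun i j : Fin m =>
                if J j + 1 ≤ I i then E (I i) (I i - J j - 1) else 0)).det = 0 := by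
      apply Matrix.det_eq_zero_of_row_eq_zero i
      intro j
      rw [Matrix.of_apply, hi, if_neg (by omega)]
    rw [this]
  · push Not at hz
    have hcast : (((Matrix.of (fun i j : Fin m =>
                if J j + 1 ≤ I i then E (I i) (I i - J j - 1) else 0)).det : ℤ) : ℝ)
        = (Matrix.of (fun i j : Fin m => cf (R ρ (I i - 1)) (J j))).det := by
      have := (Int.castRingHom ℝ).map_det (Matrix.of (fun i j : Fin m =>
                if J j + 1 ≤ I i then E (I i) (I i - J j - 1) else 0))
      simp only [eq_intCast] at this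
      rw [this]
      congr 1
      ext i j
      simp only [RingHom.mapMatrix_apply, Matrix.map_apply, Matrix.of_apply, eq_intCast]
      exact entry ρ E h0 h1 h2 (I i) (J j) (hz i)
    have key : 0 ≤ (Matrix.of (fun i j : Fin m => cf (R ρ (I i - 1)) (J j))).det := by
      interval_cases m
      · simp
      · rw [Matrix.det_fin_one]
        simp only [Matrix.of_apply]
        by_cases h : ((I 0 - 1 : ℕ) : ℤ) < J 0
        · rw [cf_R_vanish ρ _ _ (Or.inr h)]
        · exact (cf_R_pos ρ _ _ (by positivity) (by omega)).le
      · have i01 : I 0 < I 1 := hI (by decide)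
        have j01 : J 0 < J 1 := hJ (by decide)
        have z0 := hz 0
        have := all2 ρ (I 0 - 1) (I 1 - 1) (by omega) (J 0) (J 1) (by exact_mod_cast j01)
        rw [Matrix.det_fin_two]
        simp only [Matrix.of_apply]
        unfold mi2 at this
        exact this
      · have i01 : I 0 < I 1 := hI (by decide)
        have j01 : J 0 < J 1 := hJ (by decide)
        have i12 : I 1 < I 2 := hI (by decide)
        have j12 : J 1 < J 2 := hJ (by decide)
        have z0 := hz 0
        have := all3 ρ (I 2 - 1) (I 0 - 1) (I 1 - 1) (I 2 - 1) (by omega) (by omega) (by omega)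
          (J 0) (J 1) (J 2) (by exact_mod_cast j01) (by exact_mod_cast j12)
        rw [Matrix.det_fin_three]
        simp only [Matrix.of_apply]
        unfold mi3 at this
        linarith
    rw [← hcast] at key
    exact_mod_cast key

end Pool.Agent.Results.MP_61fb0e_co.MinorsOrderThree
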